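import Pool.Agent.H75.S6C.Glu
import Pool.Agent.H80.S6C.Num

/-!
# The trivial planks of the frames

If the fans at the points of precision `Q` are straight to precision `l`, and their directions are
functions of the windows, there are planks of thickness `w + l` for these windows.
-/

set_option autoImplicit false

namespace Pool.S6C

open Finset Real
open Pool.Agent.H49.Ent Pool.Agent.H32.Dense Pool.STK Pool.KA Pool.KSAT Pool.K2S Pool.PB Pool.KS6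

/-- **Trivial planks**, one family. -/
theorem trv_one {J : ℕ} (F : Fam 3 J) {i₀ iu iN : Fin 3}
    (hi : ∀ j : Fin 3, j = i₀ ∨ j = iu ∨ j = iN) {Qt w l P2 : ℕ} {A : F.Ω → Prop}
    (hA : 0 < Pe F.p A)
    {c n : (Fin 3 → ℤ) × (ℕ × F.ζ) → ℝ}
    {ζ : ((Fin 3 → ℝ) × (Fin 3 → ℝ)) × F.ζ × ℕ → ℝ}
    (h1 : ∀ ω, A ω → |F.d ω iN - c (Pool.KS6.ptq F Qt ω) * F.d ω i₀ - n (Pool.KS6.ptq F Qt ω)| ≤
      1 / 2 ^ l)
    (h2 : ∀ ω, A ω → |c (Pool.KS6.ptq F Qt ω) - ζ (slam F w ω)| ≤ 1 / 2 ^ l)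
    (h3 : ∀ ω, A ω → |c (Pool.KS6.ptq F Qt ω)| ≤ 4)
    (hQ : Qt ≤ J) (hw : w ≤ Qt) (hP : P2 ≤ w + l) (hPQ : P2 ≤ Qt) :
    ∃ B : F.Ω → Prop, Sub B A ∧
      Real.exp (-(8 * (3 * Real.log 15 + 6 * Real.log (16 * 10 + 21)))) / 2 * Pe F.p A ≤
        Pe F.p B ∧ LABq F Qt i₀ iu iN w 0 P2 2 B := by
  classical
  obtain ⟨n1, n2, n3⟩ := three hi
  obtain ⟨Φ, hΦ⟩ : ∃ Φ : (Fin 3 → ℤ) × (ℕ × F.ζ) → Pln, Φ = fun u =>
      { e := 0, c := -(c u), s := 0,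
        xb := fun i => (u.1 i : ℝ) / 2 ^ Qt - (u.2.1 : ℝ) / 2 ^ J *
          Pool.KS6.bp i₀ iu 0 (-(c u)) 0 0 0 (n u) i
        db := Pool.KS6.bp i₀ iu 0 (-(c u)) 0 0 0 (n u) } := ⟨_, rfl⟩
  obtain ⟨y, hy⟩ : ∃ y : F.Ω → Pln, y = fun ω => Φ (Pool.KS6.ptq F Qt ω) := ⟨_, rfl⟩
  have hQ0 : (0 : ℝ) < 2 ^ Qt := by positivity
  have i2 : (1 : ℝ) / 2 ^ Qt ≤ 1 / 2 ^ P2 := inv_mono hPQ
  have i3 : (1 : ℝ) / 2 ^ Qt ≤ 1 / 2 ^ w := inv_mono hw
  have i4 : (1 : ℝ) / 2 ^ l ≤ 2 ^ w / 2 ^ P2 := by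
    rw [div_le_div_iff₀ (by positivity) (by positivity), one_mul, ← pow_add]
    exact pow_le_pow_right₀ (by norm_num) hP
  have hI : ∀ ω, A ω → Inc i₀ iu iN w 0 P2 10 (y ω) (F.t ω) (F.x ω) (F.d ω) := by
    intro ω hω
    obtain ⟨u, hu⟩ : ∃ u, u = Pool.KS6.ptq F Qt ω := ⟨_, rfl⟩
    have hyu : y ω = Φ u := by rw [hy, hu]
    have hx : ∀ i, |F.x ω i - (u.1 i : ℝ) / 2 ^ Qt| ≤ 1 / 2 ^ Qt := by
      intro i
      rw [hu]
      exact floor_near Qt (F.x ω i)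
    have hmv : ∀ i, (Φ u).xb i + F.t ω * (Φ u).db i = (u.1 i : ℝ) / 2 ^ Qt := by
      intro i
      rw [hΦ, hu]
      change (_ : ℝ) - (F.T ω : ℝ) / 2 ^ J * _ + (F.T ω : ℝ) / 2 ^ J * _ = _
      ring
    have hmv' : (fun i => (Φ u).xb i + F.t ω * (Φ u).db i) = fun i => (u.1 i : ℝ) / 2 ^ Qt :=
      funext hmv
    have he := h3 ω hω
    have hon := h1 ω hω
    rw [← hu] at he hon
    have hx0 := hx i₀
    have hxu := hx iu
    have hxN := hx iN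
    have ee : (Φ u).e = 0 := by rw [hΦ]
    have ec : (Φ u).c = -(c u) := by rw [hΦ]
    have es : (Φ u).s = 0 := by rw [hΦ]
    have edb : (Φ u).db = Pool.KS6.bp i₀ iu 0 (-(c u)) 0 0 0 (n u) := by rw [hΦ]
    rw [hyu]
    refine ⟨?_, ?_, ?_, ?_, ?_, ?_, ?_, ?_, ?_⟩
    · rw [ee, abs_zero]; norm_num
    · rw [ec, abs_neg]; exact he
    · rw [es, abs_zero]; norm_num
    · rw [hmv]
      refine hx0.trans (i3.trans ?_)
      exact div_le_div_of_nonneg_right (by norm_num) (by positivity)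
    · rw [hmv', ee, add_zero]
      have e1 : fu i₀ iu 0 (F.x ω) - fu i₀ iu 0 (fun i => (u.1 i : ℝ) / 2 ^ Qt) =
          (F.x ω iu - (u.1 iu : ℝ) / 2 ^ Qt) := by
        unfold fu
        ring
      rw [e1]
      refine hxu.trans (i3.trans ?_)
      exact div_le_div_of_nonneg_right (by norm_num) (by positivity)
    · rw [hmv', ec, es]
      have e1 : fn i₀ iu iN (-(c u)) 0 (F.x ω) -
          fn i₀ iu iN (-(c u)) 0 (fun i => (u.1 i : ℝ) / 2 ^ Qt) =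
          -(c u) * (F.x ω i₀ - (u.1 i₀ : ℝ) / 2 ^ Qt) +
            (F.x ω iN - (u.1 iN : ℝ) / 2 ^ Qt) := by
        unfold fn
        ring
      rw [e1]
      have e2 : |-(c u) * (F.x ω i₀ - (u.1 i₀ : ℝ) / 2 ^ Qt)| ≤ 4 * (1 / 2 ^ Qt) := by
        rw [abs_mul, abs_neg]
        exact mul_le_mul he hx0 (abs_nonneg _) (by norm_num)
      refine (abs_add_le _ _).trans ?_
      have e3 : (10 : ℝ) / 2 ^ P2 = 10 * (1 / 2 ^ P2) := by ring
      rw [e3]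
      have : (0 : ℝ) < 1 / 2 ^ P2 := by positivity
      linarith only [i2, hxN, e2, this]
    · rw [edb, bp_i0, sub_zero]
      exact (F.dir ω i₀).trans (by norm_num)
    · rw [ee, edb, bp_fu n1, sub_zero, pow_zero, div_one]
      have e1 : fu i₀ iu 0 (F.d ω) = F.d ω iu := by unfold fu; ring
      rw [e1]
      exact (F.dir ω iu).trans (by norm_num)
    · rw [ec, es, edb, bp_fn n1 n2 n3]
      have e1 : fn i₀ iu iN (-(c u)) 0 (F.d ω) - n u = F.d ω iN - c u * F.d ω i₀ - n u := by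
        unfold fn
        ring
      rw [e1]
      refine hon.trans (i4.trans ?_)
      have e3 : (10 : ℝ) * 2 ^ w / 2 ^ P2 = 10 * (2 ^ w / 2 ^ P2) := by ring
      rw [e3]
      have : (0 : ℝ) < 2 ^ w / 2 ^ P2 := by positivity
      linarith only [this]
  obtain ⟨Z, hZ⟩ : ∃ Z : ((Fin 3 → ℝ) × (Fin 3 → ℝ)) × F.ζ × ℕ → Pln, Z = fun v =>
      { e := 0, c := -(ζ v), s := 0, xb := fun _ => 0, db := fun _ => 0 } := ⟨_, rfl⟩
  have hr : ∀ ω, A ω → |(y ω).e - (Z (slam F w ω)).e| ≤ 1 / 2 ^ 0 ∧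
      |(y ω).s - (Z (slam F w ω)).s| ≤ 1 / 2 ^ l ∧
      |Ae (y ω).c (y ω).s (Z (slam F w ω)).c (Z (slam F w ω)).s (Z (slam F w ω)).e| ≤
        1 / 2 ^ l := by
    intro ω hω
    have ee : (y ω).e = 0 := by rw [hy, hΦ]
    have ec : (y ω).c = -(c (Pool.KS6.ptq F Qt ω)) := by rw [hy, hΦ]
    have es : (y ω).s = 0 := by rw [hy, hΦ]
    have ze : (Z (slam F w ω)).e = 0 := by rw [hZ]
    have zc : (Z (slam F w ω)).c = -(ζ (slam F w ω)) := by rw [hZ]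
    have zs : (Z (slam F w ω)).s = 0 := by rw [hZ]
    refine ⟨?_, ?_, ?_⟩
    · rw [ee, ze, sub_self, abs_zero]
      positivity
    · rw [es, zs, sub_self, abs_zero]
      positivity
    · rw [ec, es, zc, zs, ze]
      have e1 : Ae (-(c (Pool.KS6.ptq F Qt ω))) 0 (-(ζ (slam F w ω))) 0 0 =
          -(c (Pool.KS6.ptq F Qt ω) - ζ (slam F w ω)) := by
        unfold Ae
        ring
      rw [e1, abs_neg]
      exact h2 ω hω
  exact lab_prod F hQ hi (C := 10) (by norm_num) hA hI (φ := Φ) (fun ω _ => by rw [hy]) hr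
    le_rfl (by omega) (by omega) (by omega) le_rfl hPQ

/-- The slopes of the frames are bounded at the points with spread fans. -/
theorem slope_le {J : ℕ} {F : Fam 3 J} {i₀ : Fin 3} {Qt h₁ l q : ℕ} (hQJ : Qt ≤ J)
    {A B : F.Ω → Prop} (hB : Sub B A)
    (hBs : ∀ ω, B ω → ∃ ω' ω'', B ω' ∧ B ω'' ∧ Fam.pt F ω' = Fam.pt F ω ∧
      Fam.pt F ω'' = Fam.pt F ω ∧ 1 / 2 ^ (q + 1) ≤ |F.d ω' i₀ - F.d ω'' i₀|)
    {eb nb : _ → Fin 3 → ℝ} (hfr : IsFrame i₀ (1 / 2 ^ h₁) (Fam.pt F) F.d A eb nb)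
    {e n : (Fin 3 → ℤ) × (ℕ × F.ζ) → Fin 3 → ℝ}
    (h1 : OnL i₀ (1 / 2 ^ l) (Pool.KS6.ptq F Qt) F.d A e n) (g2 : q + 4 ≤ l) (hqh : q + 4 ≤ h₁) :
    ∀ ω, B ω → ∀ j, |e (Pool.KS6.ptq F Qt ω) j| ≤ 2 := by
  intro ω hω j
  obtain ⟨ω', ω'', b1, b2, b3, b4, b5⟩ := hBs ω hω
  have a1 := hfr.line ω' (hB _ b1) j
  have a2 := hfr.line ω'' (hB _ b2) j
  have a3 := h1 ω' (hB _ b1) j
  have a4 := h1 ω'' (hB _ b2) j
  rw [b3] at a1
  rw [b4] at a2
  rw [ptq_of_pt F hQJ b3] at a3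
  rw [ptq_of_pt F hQJ b4] at a4
  have hcl := frame_close (U := ℕ) (d := F.d) a1 a2 a3 a4 (by positivity) b5
  have hb := hfr.bound ω (hB _ hω) j
  have k1 : (1 : ℝ) / 2 ^ l ≤ 1 / 2 ^ (q + 4) := inv_mono g2
  have k2 : (1 : ℝ) / 2 ^ h₁ ≤ 1 / 2 ^ (q + 4) := inv_mono hqh
  have t1 : (2 * (1 / 2 ^ h₁) + 2 * (1 / 2 ^ l)) / (1 / 2 ^ (q + 1)) ≤ (1 : ℝ) := by
    rw [div_le_iff₀ (by positivity)]
    have : (1 : ℝ) / 2 ^ (q + 4) = 1 / 2 ^ (q + 1) / 8 := by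
      rw [show q + 4 = q + 1 + 3 by ring, pow_add 2 (q + 1) 3]
      field_simp
      norm_num
    have h0 : (0 : ℝ) < 1 / 2 ^ (q + 1) := by positivity
    rw [this] at k1 k2
    linarith only [k1, k2, h0]
  have := abs_sub_abs_le_abs_sub (e (Pool.KS6.ptq F Qt ω) j) (eb (Fam.pt F ω) j)
  linarith only [hcl, hb, t1, this]

/-- **(TRV)** The trivial planks of the frames, for the windows up to `Q`. -/
theorem trv {S : PCl 3} {a R h₁ : ℝ} {i₀ : Fin 3} {c s₂ : ℝ} {r : ℝ → ℝ} {D : Set ℝ}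
    {σ : ℝ → Row} (hC : Cs S a R h₁ i₀ c s₂ r D σ) {Q : ℝ} (hQ1 : Q ≤ 1)
    {ρ : Row} (hρ : Rw S i₀ Q ρ) (w : ℚ) (hw0 : 0 ≤ w) (hwQ : (w : ℝ) ≤ Q) :
    min ((w : ℝ) + ρ.rot w) Q ≤ ρ.th w := by
  classical
  have hw1 : w ≤ 1 := by
    have : (w : ℝ) ≤ 1 := hwQ.trans hQ1
    exact_mod_cast this
  have hw0' : (0 : ℝ) ≤ w := by exact_mod_cast hw0
  obtain ⟨mn, hmn⟩ : ∃ mn, mn = min ((w : ℝ) + ρ.rot w) Q := ⟨_, rfl⟩
  have hm1 : mn ≤ w + ρ.rot w := by rw [hmn]; exact min_le_left _ _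
  have hm2 : mn ≤ Q := by rw [hmn]; exact min_le_right _ _
  rw [← hmn]
  refine le_of_forall_pos_le_add fun h₀ hh₀ => ?_
  obtain ⟨h, hh⟩ : ∃ h, h = h₀ / 2 := ⟨_, rfl⟩
  have hh0 : 0 < h := by rw [hh]; linarith only [hh₀]
  obtain ⟨κc, hκc⟩ : ∃ κc : ℝ, κc = Real.exp (-(8 * (3 * Real.log 15 +
      6 * Real.log (16 * 10 + 21)))) / 2 := ⟨_, rfl⟩
  have hκc0 : 0 < κc := by rw [hκc]; positivity
  -- the other two coordinates
  obtain ⟨iu, iN, hi⟩ : ∃ iu iN : Fin 3, ∀ j : Fin 3, j = i₀ ∨ j = iu ∨ j = iN := by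
    clear * -
    revert i₀
    decide
  have key : mn - 2 * h ≤ ρ.th w := by
    by_cases hg : mn - 2 * h ≤ 0
    · exact hg.trans (num_nonneg hC.ne (hρ.th w hw0 hw1))
    push Not at hg
    refine num_ge hC.ne (hρ.th w hw0 hw1) ?_
    obtain ⟨v, hv⟩ : ∃ v, v = ρ.rot w - h := ⟨_, rfl⟩
    obtain ⟨x, hx⟩ : ∃ x, x = min (h / 4) (min h₁ 1 / 4) := ⟨_, rfl⟩
    have hx0 : 0 < x := by
      rw [hx]
      have := lt_min hC.h₁0 one_pos
      exact lt_min (by linarith only [hh0]) (by linarith only [this])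
    have hxv : x ≤ h / 4 := by rw [hx]; exact min_le_left _ _
    have hx1 : x ≤ h₁ / 4 := by
      rw [hx]
      refine (min_le_right _ _).trans ?_
      have := min_le_left h₁ 1
      linarith only [this]
    have hx2 : x ≤ 1 / 4 := by
      rw [hx]
      refine (min_le_right _ _).trans ?_
      have := min_le_right h₁ 1
      linarith only [this]
    obtain ⟨τ, hτ, J₁, hsp⟩ := spread_part hC.a1 hC.R0 hC.ub hC.st hC.lb hx0
    obtain ⟨J₃, hJ₃⟩ := exists_nat_gt (32 / h + 32 / h₁ + 16)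
    refine Clp.step ⟨1, fun J F _ => capS Q (qTh i₀ Q w) (mn - 2 * h) J F, fun J F _ =>
      capS_hered (fun s J F A B hB => by
        rintro ⟨iu, iN, hi, hL⟩
        exact ⟨iu, iN, hi, LABq.hered _ _ _ _ _ _ _ _ _ A B hB hL⟩) _ J F⟩ fun κ hκ => ?_
    obtain ⟨J₂, hJ₂⟩ := Pool.S6K.exp_small (κ := κ) (C := max 1 (2 / κc)) hκ (le_max_left _ _)
    have c1 := (hρ.rot w hw0 hw1).1 (h / 2) (by linarith only [hx0, hxv])
    have c3 : Clp S (fun J F A => (0 < Pe F.p A ∧ Lb F i₀ ⌊h₁ * J⌋₊ A) ∧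
        ∀ q : ℕ, q ≤ J → x * J ≤ q → q + 2 ≤ ⌊h₁ * J⌋₊ →
          ∃ B : F.Ω → Prop, Sub B A ∧ Real.exp (-Real.log 2) * Pe F.p A ≤ Pe F.p B ∧
          ∀ ω, B ω → ∃ ω' ω'', B ω' ∧ B ω'' ∧ Fam.pt F ω' = Fam.pt F ω ∧
            Fam.pt F ω'' = Fam.pt F ω ∧ 1 / 2 ^ (q + 1) ≤ |F.d ω' i₀ - F.d ω'' i₀|) :=
      Clp.base τ hτ J₁ fun J hJ F A hS =>
        ⟨⟨lt_of_lt_of_le (Real.exp_pos _) (hC.st _ _ _ _ hS).2.2.2, hC.lb _ _ _ _ hS⟩,
          hsp J hJ F A hS⟩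
    refine Clp.mono (J₂ := max J₂ J₃) (c1.and c3) ?_
    rintro J hJ F A ⟨d1, ⟨dA, eb, nb, hfr⟩, d3⟩ hSb
    have hJr : 32 / h + 32 / h₁ + 16 < J :=
      hJ₃.trans_le (by exact_mod_cast (le_max_right _ _).trans hJ)
    have q1 : 0 < 32 / h := by positivity
    have q2 : 0 < 32 / h₁ := div_pos (by norm_num) hC.h₁0
    have hJv : 32 < J * h := by
      have : 32 / h < J := by linarith only [hQ1, hm2, hg, hx0, hxv, hJr, q2]
      rwa [div_lt_iff₀ hh0] at this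
    have hJh₁ : 32 < J * h₁ := by
      have : 32 / h₁ < J := by linarith only [hQ1, hm2, hg, hx0, hxv, hJr, q1]
      rwa [div_lt_iff₀ hC.h₁0] at this
    have hJ0 : (0 : ℝ) ≤ J := Nat.cast_nonneg J
    have hJ16 : (16 : ℝ) < J := by linarith only [hJr, q1, q2]
    have hQJ : ⌊Q * J⌋₊ ≤ J := by
      have : Q * J ≤ 1 * J := mul_le_mul_of_nonneg_right hQ1 hJ0
      rw [one_mul] at this
      exact (Nat.floor_le_floor this).trans (Nat.floor_natCast J).le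
    have hwQ' : ⌊(w : ℝ) * J⌋₊ ≤ ⌊Q * J⌋₊ :=
      Nat.floor_le_floor (mul_le_mul_of_nonneg_right hwQ hJ0)
    have hPQ' : ⌊(mn - 2 * h) * J⌋₊ ≤ ⌊Q * J⌋₊ :=
      Nat.floor_le_floor (mul_le_mul_of_nonneg_right (by linarith only [hm2, hx0, hxv]) hJ0)
    have fw : w * (J : ℝ) < ⌊(w : ℝ) * J⌋₊ + 1 := Nat.lt_floor_add_one _
    have fP : (⌊(mn - 2 * h) * J⌋₊ : ℝ) ≤ (mn - 2 * h) * J :=
      Nat.floor_le (by positivity)
    -- the conclusion from planks on a large part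
    have fin : ∀ B : F.Ω → Prop, Sub B A → Pe F.p A ≤ 2 / κc * Pe F.p B →
        LABq F ⌊Q * J⌋₊ i₀ iu iN ⌊(w : ℝ) * J⌋₊ 0 ⌊(mn - 2 * h) * J⌋₊ 2 B →
        capS Q (qTh i₀ Q w) (mn - 2 * h) J F A := by
      intro B hB hPA hL
      refine Pool.S6K.stb_part (hSb 0) hB (C := max 1 (2 / κc)) (by positivity) ?_
        (hJ₂ J ((le_max_left _ _).trans hJ)) (Pe_nonneg F.isLaw A)
        (Or.inr ⟨by linarith only [hm2, hx0, hxv], iu, iN, hi, hL⟩)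
      exact hPA.trans (mul_le_mul_of_nonneg_right (le_max_right _ _) (Pe_nonneg F.isLaw B))
    have half : ∀ {B B' : F.Ω → Prop}, 1 / 2 * Pe F.p A ≤ Pe F.p B →
        κc * Pe F.p B ≤ Pe F.p B' → Pe F.p A ≤ 2 / κc * Pe F.p B' := by
      intro B B' e1 e2
      rw [div_mul_eq_mul_div, le_div_iff₀ hκc0]
      nlinarith only [e2, hκc0, e1]
    rcases le_or_gt v 0 with hv0 | hv0
    · -- no information on the directions
      obtain ⟨B, hB, hPB, hL⟩ := trv_one F hi (Qt := ⌊Q * J⌋₊) (w := ⌊(w : ℝ) * J⌋₊) (l := 0)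
        (P2 := ⌊(mn - 2 * h) * J⌋₊) (A := A) dA (c := fun _ => 0) (n := fun _ => 0)
        (ζ := fun _ => 0) (fun ω _ => by
          have := F.dir ω iN
          simpa using this) (fun ω _ => by simp) (fun ω _ => by simp) hQJ hwQ' (by
          have e1 : (mn - 2 * h) * J ≤ (w - h) * J :=
            mul_le_mul_of_nonneg_right (by linarith only [hm1, hv, hv0]) hJ0
          have e2 : (⌊(mn - 2 * h) * J⌋₊ : ℝ) < ⌊(w : ℝ) * J⌋₊ + 1 := by
            have : h * J > 0 := by nlinarith only [hQ1, hm2, hg, hx0, hxv, hJv]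
            linarith only [hQ1, hm2, hg, hx0, hxv, hJv, fw, fP, e1]
          have e3 : ⌊(mn - 2 * h) * J⌋₊ < ⌊(w : ℝ) * J⌋₊ + 1 := by exact_mod_cast e2
          omega) hPQ'
      rw [← hκc] at hPB
      refine fin B hB ?_ hL
      have hPA := Pe_nonneg F.isLaw A
      exact half (B := A) (by linarith only [dA]) hPB
    · obtain ⟨q, hq⟩ : ∃ q, q = ⌈x * J⌉₊ := ⟨_, rfl⟩
      have hq1 : x * J ≤ q := by rw [hq]; exact Nat.le_ceil _
      have hq2 : (q : ℝ) < x * J + 1 := by rw [hq]; exact Nat.ceil_lt_add_one (by positivity)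
      have hqJ : q ≤ J := by
        have e1 : x * J ≤ 1 / 4 * J := mul_le_mul_of_nonneg_right hx2 hJ0
        have : (q : ℝ) ≤ J := by linarith only [hQ1, hm2, hg, hx0, hxv, hJr, q1, q2, hq2, e1]
        exact_mod_cast this
      have hqh : q + 4 ≤ ⌊h₁ * J⌋₊ := by
        refine Nat.le_floor ?_
        push_cast
        have e1 : x * J ≤ h₁ / 4 * J := mul_le_mul_of_nonneg_right hx1 hJ0
        linarith only [hQ1, hm2, hg, hx0, hxv, hJh₁, hq2, e1]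
      obtain ⟨B, hB, hPB, hBs⟩ := d3 q hqJ hq1 (by omega)
      rcases d1 with d1 | ⟨-, e, n, ζ, h1, h2⟩
      · linarith only [hv, hx0, hxv, hv0, d1]
      obtain ⟨l1, hl1⟩ : ∃ l1, l1 = ⌊(ρ.rot w - h / 2) * J⌋₊ := ⟨_, rfl⟩
      rw [← hl1] at h1 h2
      have g2 : q + 4 ≤ l1 := by
        rw [hl1]
        refine Nat.le_floor ?_
        push_cast
        have e1 : x * J ≤ h / 4 * J := mul_le_mul_of_nonneg_right hxv hJ0
        have e2 : h / 2 * J ≤ (ρ.rot w - h / 2) * J :=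
          mul_le_mul_of_nonneg_right (by linarith only [hv, hv0]) hJ0
        linarith only [hQ1, hm2, hg, hx0, hxv, hJv, hq2, e1, e2]
      have hbd := slope_le hQJ hB hBs hfr h1 g2 hqh
      have hPeB : 0 < Pe F.p B := lt_of_lt_of_le (by positivity) hPB
      have fl1 : (ρ.rot w - h / 2) * J < l1 + 1 := by rw [hl1]; exact Nat.lt_floor_add_one _
      obtain ⟨B', hB', hPB', hL⟩ := trv_one F hi (Qt := ⌊Q * J⌋₊) (w := ⌊(w : ℝ) * J⌋₊)
        (l := l1) (P2 := ⌊(mn - 2 * h) * J⌋₊) (A := B) hPeB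
        (c := fun u => e u iN) (n := fun u => n u iN) (ζ := fun u => ζ u iN)
        (fun ω hω => h1 ω (hB _ hω) iN) (fun ω hω => h2 ω (hB _ hω) iN)
        (fun ω hω => (hbd ω hω iN).trans (by norm_num)) hQJ hwQ' (by
          have e1 : (mn - 2 * h) * J ≤ (w + (ρ.rot w - h / 2) - 3 / 2 * h) * J :=
            mul_le_mul_of_nonneg_right (by linarith only [hm1]) hJ0
          have e2 : (⌊(mn - 2 * h) * J⌋₊ : ℝ) < ((⌊(w : ℝ) * J⌋₊ + l1 : ℕ) : ℝ) + 1 := by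
            push_cast
            nlinarith only [hQ1, hm2, hg, hx0, hxv, hJv, fw, fP, fl1, e1]
          have e3 : ⌊(mn - 2 * h) * J⌋₊ < (⌊(w : ℝ) * J⌋₊ + l1) + 1 := by exact_mod_cast e2
          omega) hPQ'
      rw [← hκc] at hPB'
      refine fin B' (hB'.trans hB) ?_ hL
      have e1 : Real.exp (-Real.log 2) = 1 / 2 := by
        rw [Real.exp_neg, Real.exp_log (by norm_num)]
        norm_num
      rw [e1] at hPB
      exact half hPB hPB'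
  linarith only [hh, key]

end Pool.S6C
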