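import Pool.Agent.H42.S6C.Defs
import Pool.Agent.H86.S6C.Trv

/-!
# TRVStmt
-/

set_option autoImplicit false

namespace Pool.S6C

open Finset Real
open Pool.Agent.H49.Ent Pool.Agent.H32.Dense Pool.STK Pool.KA Pool.KSAT Pool.K2S Pool.PB Pool.KS6

/-- **(TRV)** -/
theorem trv_thm : TRVStmt := by
  intro S a R h₁ i₀ c s₂ r D σ hC Q hQ hQ1 hQD w hw hwQ
  exact trv hC hQ1 (hC.row Q (by linarith) hQ1 hQD) w hw.le hwQ

end Pool.S6C
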